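import Pool.Agent.Y933.KD.VdC2

/-!
# Power saving in exponential sums with a smooth phase (helper934)

The van der Corput estimate of order `K + 1` with a power saving, for phases whose derivative of
order `K + 1` is positive, decreasing and of size `Q ^ s`, with `s` between `-(K + 1) + μ` and `-μ`,
up to factors `Q ^ (μ / 8)`.
-/

set_option autoImplicit false

namespace Pool.Agent.Y934.An

open Finset Real Filter
open Pool.Agent.H469R2.NK (e norm_e e_add norm_sum_neg Cq Cq_pos)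
open Pool.Agent.TH915.PW (Hy)
open Pool.Agent.Y933.KD.VdC (exp_bound one_add_log_le)

lemma ev (C a : ℝ) (ha : 0 < a) : ∃ Q0 : ℝ, 1 ≤ Q0 ∧ ∀ Q : ℝ, Q0 ≤ Q → C ≤ Q ^ a := by
  obtain ⟨Q1, hQ1⟩ := eventually_atTop.1 ((tendsto_rpow_atTop ha).eventually_ge_atTop C)
  exact ⟨max Q1 1, le_max_right _ _, fun Q hQ => hQ1 Q ((le_max_left _ _).trans hQ)⟩

theorem gen_zero (T μ : ℝ) (hT : 1 ≤ T) (hμ : 0 < μ) (hμ1 : μ ≤ 1 / 4) :
    ∃ ρ : ℝ, 0 < ρ ∧ ∃ Q0 : ℝ, 1 ≤ Q0 ∧ ∀ Q : ℝ, Q0 ≤ Q →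
      ∀ (A B lo hi Λ θ u : ℝ) (φ : ℕ → ℝ → ℝ) (L : ℕ),
      Hy 0 A B lo hi φ → (L : ℝ) ≤ T * Q → A ≤ u → u + L ≤ B → 0 < θ → 0 < Λ →
      Λ ≤ Q ^ (-μ) → Q ^ (-((0 : ℕ) + 1) + μ : ℝ) ≤ Λ → Λ * Q ^ (-(μ / 8)) ≤ θ * lo →
      θ * hi ≤ Λ * Q ^ (μ / 8) → ‖∑ n ∈ range L, e (θ * φ 0 (u + n))‖ ≤ Q ^ (1 - ρ) := by
  have hC0 := Cq_pos 0
  obtain ⟨Q1, hQ1, hQ1'⟩ := ev 2 (7 * μ / 8) (by positivity)
  obtain ⟨Q2, hQ2, hQ2'⟩ := ev (Cq 0 * 3) (3 * μ / 8) (by positivity)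
  refine ⟨μ / 2, by positivity, max Q1 Q2, hQ1.trans (le_max_left _ _), ?_⟩
  intro Q hQ A B lo hi Λ θ u φ L hy hL hu huL hθ hΛ h1 h2 h3 h4
  have hQa := hQ1' Q ((le_max_left _ _).trans hQ)
  have hQb := hQ2' Q ((le_max_right _ _).trans hQ)
  have hQ1R : 1 ≤ Q := (hQ1.trans (le_max_left _ _)).trans hQ
  have hQp : 0 < Q := by linarith
  rcases Nat.eq_zero_or_pos L with rfl | hLpos
  · simp only [range_zero, sum_empty, norm_zero]
    positivity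
  have hlo : 0 < lo := by
    have : 0 < θ * lo := lt_of_lt_of_le (by positivity) h3
    exact (mul_pos_iff_of_pos_left hθ).1 this
  have hhi : 0 ≤ hi := by
    have hu' : u ∈ Set.Icc A B := ⟨hu, by
      have : (0 : ℝ) ≤ L := Nat.cast_nonneg L
      linarith⟩
    linarith [hy.lo u hu', hy.hi u hu']
  set N : ℕ := ⌈T * Q⌉₊ with hN
  have hNL : L ≤ N := by exact_mod_cast hL.trans (Nat.le_ceil _)
  have hN1 : 1 ≤ N := by omega
  have hNR : (0 : ℝ) < N := by exact_mod_cast hN1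
  have key := exp_bound hlo hhi θ hθ hy u N L N hN1 hNL hu huL hN1 le_rfl (by
    rw [pow_zero, mul_one]
    calc 2 * (θ * hi) ≤ 2 * (Λ * Q ^ (μ / 8)) := by gcongr
      _ ≤ Q ^ (7 * μ / 8) * (Q ^ (-μ) * Q ^ (μ / 8)) := by gcongr
      _ = 1 := by
        rw [← Real.rpow_add hQp, ← Real.rpow_add hQp]
        have : 7 * μ / 8 + (-μ + μ / 8) = 0 := by ring
        rw [this, Real.rpow_zero])
  simp only [pow_zero, pow_one, mul_one] at key
  have h5 : ‖∑ n ∈ range L, e (θ * φ 0 (u + n))‖ ≤ Cq 0 * (1 + 2 / (θ * lo)) := by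
    rw [div_le_iff₀ hNR] at key
    refine key.trans (le_of_eq ?_)
    field_simp
  have h6 : 2 / (θ * lo) ≤ 2 * Q ^ (1 - 7 * μ / 8) := by
    rw [div_le_iff₀ (by positivity)]
    have h7 : Q ^ (-1 + 7 * μ / 8) ≤ θ * lo := by
      refine le_trans ?_ h3
      calc Q ^ (-1 + 7 * μ / 8) = Q ^ (-((0 : ℕ) + 1) + μ : ℝ) * Q ^ (-(μ / 8)) := by
            rw [← Real.rpow_add hQp]
            congr 1
            push_cast
            ring
        _ ≤ Λ * Q ^ (-(μ / 8)) := by gcongr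
    calc (2 : ℝ) = 2 * (Q ^ (1 - 7 * μ / 8) * Q ^ (-1 + 7 * μ / 8)) := by
          rw [← Real.rpow_add hQp]
          have : 1 - 7 * μ / 8 + (-1 + 7 * μ / 8) = 0 := by ring
          rw [this, Real.rpow_zero, mul_one]
      _ ≤ 2 * (Q ^ (1 - 7 * μ / 8) * (θ * lo)) := by gcongr
      _ = 2 * Q ^ (1 - 7 * μ / 8) * (θ * lo) := by ring
  have h7 : (1 : ℝ) ≤ Q ^ (1 - 7 * μ / 8) := Real.one_le_rpow hQ1R (by linarith)
  calc ‖∑ n ∈ range L, e (θ * φ 0 (u + n))‖ ≤ Cq 0 * (1 + 2 / (θ * lo)) := h5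
    _ ≤ Cq 0 * (Q ^ (1 - 7 * μ / 8) + 2 * Q ^ (1 - 7 * μ / 8)) := by gcongr
    _ = Cq 0 * 3 * Q ^ (1 - 7 * μ / 8) := by ring
    _ ≤ Q ^ (3 * μ / 8) * Q ^ (1 - 7 * μ / 8) := by gcongr
    _ = Q ^ (1 - μ / 2) := by
        rw [← Real.rpow_add hQp]
        congr 1
        ring

theorem gen_succ (K : ℕ) (hK0 : 1 ≤ K) (T μ : ℝ) (hT : 1 ≤ T) (hμ : 0 < μ) (hμ1 : μ ≤ 1 / 4) :
    ∃ ρ : ℝ, 0 < ρ ∧ ∃ Q0 : ℝ, 1 ≤ Q0 ∧ ∀ Q : ℝ, Q0 ≤ Q →
      ∀ (A B lo hi Λ θ u : ℝ) (φ : ℕ → ℝ → ℝ) (L : ℕ),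
      Hy K A B lo hi φ → (L : ℝ) ≤ T * Q → A ≤ u → u + L ≤ B → 0 < θ → 0 < Λ →
      Λ ≤ Q ^ (-μ) → Q ^ (-((K : ℝ) + 1) + μ) ≤ Λ → Λ * Q ^ (-(μ / 8)) ≤ θ * lo →
      θ * hi ≤ Λ * Q ^ (μ / 8) → ‖∑ n ∈ range L, e (θ * φ 0 (u + n))‖ ≤ Q ^ (1 - ρ) := by
  have hKR : (1 : ℝ) ≤ K := by exact_mod_cast hK0
  have hKp : (0 : ℝ) < K := by linarith
  set a' : ℝ := μ / (8 * K) with ha'
  have ha'0 : 0 < a' := by positivity
  set C2 : ℝ := 2 * ((1 + 1 / a') ^ K * 2 ^ K) with hC2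
  have hC20 : 0 < C2 := by positivity
  have hCq := Cq_pos K
  obtain ⟨Q1, hQ1, hQ1'⟩ := ev 2 (3 * μ / 8) (by positivity)
  obtain ⟨Q2, hQ2, hQ2'⟩ := ev (4 * Cq K) (3 * μ / (8 * K)) (by positivity)
  obtain ⟨Q3, hQ3, hQ3'⟩ := ev (2 * (Cq K * C2)) (μ / 8) (by positivity)
  obtain ⟨Q4, hQ4, hQ4'⟩ := ev (2 * T) (μ / (16 * K * 2 ^ K)) (by positivity)
  refine ⟨μ / (16 * K * 2 ^ K), by positivity, max (max Q1 Q2) (max (max Q3 Q4) 2), ?_, ?_⟩
  · exact hQ1.trans ((le_max_left _ _).trans (le_max_left _ _))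
  intro Q hQ A B lo hi Λ θ u φ L hy hL hu huL hθ hΛ h1 h2 h3 h4
  have hQa := hQ1' Q (((le_max_left _ _).trans (le_max_left _ _)).trans hQ)
  have hQb := hQ2' Q (((le_max_right _ _).trans (le_max_left _ _)).trans hQ)
  have hQc := hQ3' Q ((((le_max_left _ _).trans (le_max_left _ _)).trans (le_max_right _ _)).trans hQ)
  have hQd := hQ4' Q ((((le_max_right _ _).trans (le_max_left _ _)).trans (le_max_right _ _)).trans hQ)
  have hQ2R : 2 ≤ Q := ((le_max_right _ _).trans (le_max_right _ _)).trans hQ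
  have hQ1R : 1 ≤ Q := by linarith
  have hQp : 0 < Q := by linarith
  have hlogQ : 0 < log Q := Real.log_pos (by linarith)
  rcases Nat.eq_zero_or_pos L with rfl | hLpos
  · simp only [range_zero, sum_empty, norm_zero]
    positivity
  have hlo : 0 < lo := by
    have : 0 < θ * lo := lt_of_lt_of_le (by positivity) h3
    exact (mul_pos_iff_of_pos_left hθ).1 this
  have hhi : 0 ≤ hi := by
    have hu' : u ∈ Set.Icc A B := ⟨hu, by
      have : (0 : ℝ) ≤ L := Nat.cast_nonneg L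
      linarith⟩
    linarith [hy.lo u hu', hy.hi u hu']
  set N : ℕ := ⌈T * Q⌉₊ with hN
  have hNL : L ≤ N := by exact_mod_cast hL.trans (Nat.le_ceil _)
  have hN1 : 1 ≤ N := by omega
  have hNR : (0 : ℝ) < N := by exact_mod_cast hN1
  have hTQ : Q ≤ T * Q := by nlinarith
  have hNQ : Q ≤ N := hTQ.trans (Nat.le_ceil _)
  have hN2 : (N : ℝ) ≤ 2 * T * Q := by
    have := Nat.ceil_lt_add_one (by positivity : 0 ≤ T * Q)
    rw [← hN] at this
    nlinarith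
  -- the exponent of the size of the derivative
  set s : ℝ := log Λ / log Q with hs
  have hsΛ : Λ = Q ^ s := by
    rw [Real.rpow_def_of_pos hQp, hs, mul_div_cancel₀ _ hlogQ.ne', Real.exp_log hΛ]
  have hs1 : s ≤ -μ := by
    rw [hsΛ] at h1
    exact (Real.rpow_le_rpow_left_iff (by linarith)).1 h1
  have hs2 : -((K : ℝ) + 1) + μ ≤ s := by
    rw [hsΛ] at h2
    exact (Real.rpow_le_rpow_left_iff (by linarith)).1 h2
  -- the exponent of the length of the differences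
  obtain ⟨κ, hκ1, hκ2, hκ3, hκ4⟩ : ∃ κ : ℝ, μ / 2 ≤ κ ∧ κ ≤ K ∧ s + κ ≤ -(μ / 2) ∧
      μ / 2 ≤ s + 1 + κ := by
    rcases le_total (-s - 1 / 2) (μ / 2) with h | h
    · exact ⟨μ / 2, le_rfl, by linarith, by linarith, by linarith⟩
    · rcases le_total (-s - 1 / 2) K with h' | h'
      · exact ⟨-s - 1 / 2, h, h', by linarith, by linarith⟩
      · exact ⟨K, by linarith, le_rfl, by linarith, by linarith⟩
  have hκ0 : 0 < κ := by linarith
  set U : ℝ := Q ^ (κ / K) with hU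
  have hU1 : 1 ≤ U := Real.one_le_rpow hQ1R (by positivity)
  have hUQ : U ≤ Q := by
    calc U ≤ Q ^ (1 : ℝ) := Real.rpow_le_rpow_of_exponent_le hQ1R (by
          rw [div_le_one (by linarith)]; exact hκ2)
      _ = Q := Real.rpow_one _
  have hUK : U ^ K = Q ^ κ := by
    rw [hU, ← Real.rpow_natCast, ← Real.rpow_mul hQp.le]
    congr 1
    field_simp
  set H : ℕ := ⌊U⌋₊ with hH
  have hH1 : 1 ≤ H := Nat.floor_pos.2 hU1
  have hHU : (H : ℝ) ≤ U := Nat.floor_le (by linarith)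
  have hHN : H ≤ N := by exact_mod_cast (hHU.trans hUQ).trans hNQ
  have hHR : (1 : ℝ) ≤ H := by exact_mod_cast hH1
  have hUH : U ≤ 2 * H := by
    have := Nat.lt_floor_add_one U
    rw [← hH] at this
    linarith
  have hHinv : 1 / (H : ℝ) ≤ 2 / U := by
    rw [div_le_div_iff₀ (by linarith) (by linarith)]
    linarith
  have key := exp_bound hlo hhi θ hθ hy u N L H hN1 hNL hu huL hH1 hHN
    (by
      have h5 : (H : ℝ) ^ K ≤ Q ^ κ := by
        rw [← hUK]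
        gcongr
      calc 2 * (θ * (hi * (H : ℝ) ^ K)) = 2 * ((θ * hi) * (H : ℝ) ^ K) := by ring
        _ ≤ Q ^ (3 * μ / 8) * ((Q ^ s * Q ^ (μ / 8)) * Q ^ κ) := by
            rw [hsΛ] at h4
            gcongr
        _ = Q ^ (3 * μ / 8 + (s + μ / 8 + κ)) := by
            rw [← Real.rpow_add hQp, ← Real.rpow_add hQp, ← Real.rpow_add hQp]
        _ ≤ 1 := by
            apply Real.rpow_le_one_of_one_le_of_nonpos hQ1R
            linarith)
  set S : ℝ := ‖∑ n ∈ range L, e (θ * φ 0 (u + n))‖ with hS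
  have hS0 : 0 ≤ S := norm_nonneg _
  have h5 : 1 / (H : ℝ) ≤ 2 * Q ^ (-(μ / (2 * K))) := by
    refine hHinv.trans ?_
    rw [hU, div_eq_mul_inv, ← Real.rpow_neg hQp.le]
    refine mul_le_mul_of_nonneg_left ?_ (by norm_num)
    apply Real.rpow_le_rpow_of_exponent_le hQ1R
    have h6 : μ / (2 * K) ≤ κ / K := by
      rw [div_le_div_iff₀ (by positivity) (by positivity)]
      nlinarith
    linarith
  have h6 : 2 / (θ * lo) / N * ((1 + log H) / H) ^ K ≤ C2 * Q ^ (-(μ / 4)) := by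
    have h7 : 1 + log H ≤ (1 + 1 / a') * Q ^ a' := by
      refine (one_add_log_le hHR ha'0).trans ?_
      have h8 : (H : ℝ) ^ a' ≤ Q ^ a' := by
        apply Real.rpow_le_rpow (by linarith) (hHU.trans hUQ) ha'0.le
      gcongr
    have h8 : (1 + log H) / H ≤ (1 + 1 / a') * Q ^ a' * (2 / U) := by
      have h8' : 0 ≤ 1 + log (H : ℝ) := by
        have := Real.log_nonneg hHR
        linarith
      rw [div_eq_mul_one_div]
      gcongr
    have h8'' : 0 ≤ (1 + log (H : ℝ)) / H := by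
      have := Real.log_nonneg hHR
      positivity
    have h9 : ((1 + log H) / H) ^ K ≤ (1 + 1 / a') ^ K * Q ^ (μ / 8) * (2 ^ K * Q ^ (-κ)) := by
      calc ((1 + log H) / H) ^ K ≤ ((1 + 1 / a') * Q ^ a' * (2 / U)) ^ K := by
            gcongr
        _ = (1 + 1 / a') ^ K * (Q ^ a') ^ K * (2 ^ K * (U ^ K)⁻¹) := by
            rw [mul_pow, mul_pow, div_pow]
            simp only [div_eq_mul_inv]
        _ = _ := by
            rw [hUK, ← Real.rpow_neg hQp.le, ← Real.rpow_natCast (Q ^ a'),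
              ← Real.rpow_mul hQp.le]
            congr 3
            rw [ha']
            field_simp
    have h10 : 2 / (θ * lo) / N ≤ 2 * Q ^ (-s - 1 + μ / 8) := by
      rw [div_div, div_le_iff₀ (by positivity)]
      have h11 : Q ^ (s + 1 - μ / 8) ≤ θ * lo * N := by
        calc Q ^ (s + 1 - μ / 8) = (Q ^ s * Q ^ (-(μ / 8))) * Q := by
              nth_rewrite 4 [← Real.rpow_one Q]
              rw [← Real.rpow_add hQp, ← Real.rpow_add hQp]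
              congr 1
              ring
          _ ≤ θ * lo * N := by
              rw [← hsΛ]
              gcongr
      calc (2 : ℝ) = 2 * (Q ^ (-s - 1 + μ / 8) * Q ^ (s + 1 - μ / 8)) := by
            rw [← Real.rpow_add hQp]
            have : -s - 1 + μ / 8 + (s + 1 - μ / 8) = 0 := by ring
            rw [this, Real.rpow_zero, mul_one]
        _ ≤ 2 * (Q ^ (-s - 1 + μ / 8) * (θ * lo * N)) := by gcongr
        _ = _ := by ring
    calc 2 / (θ * lo) / N * ((1 + log H) / H) ^ K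
        ≤ 2 * Q ^ (-s - 1 + μ / 8) *
          ((1 + 1 / a') ^ K * Q ^ (μ / 8) * (2 ^ K * Q ^ (-κ))) := by gcongr
      _ = C2 * ((Q ^ (-s - 1 + μ / 8) * Q ^ (μ / 8)) * Q ^ (-κ)) := by
          rw [hC2]; ring
      _ = C2 * Q ^ (-s - 1 + μ / 8 + μ / 8 + -κ) := by
          rw [← Real.rpow_add hQp, ← Real.rpow_add hQp]
      _ ≤ C2 * Q ^ (-(μ / 4)) := by
          refine mul_le_mul_of_nonneg_left ?_ hC20.le
          apply Real.rpow_le_rpow_of_exponent_le hQ1R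
          linarith
  have h11 : (S / N) ^ (2 ^ K) ≤ Q ^ (-(μ / (8 * K))) := by
    refine key.trans ?_
    have h12 : Cq K * (2 * Q ^ (-(μ / (2 * K)))) ≤ 1 / 2 * Q ^ (-(μ / (8 * K))) := by
      have e1 : Q ^ (-(μ / (8 * K))) = Q ^ (3 * μ / (8 * K)) * Q ^ (-(μ / (2 * K))) := by
        rw [← Real.rpow_add hQp]
        congr 1
        field_simp
        ring
      rw [e1]
      have h13 : 0 < Q ^ (-(μ / (2 * K))) := by positivity
      nlinarith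
    have h14 : Cq K * (C2 * Q ^ (-(μ / 4))) ≤ 1 / 2 * Q ^ (-(μ / (8 * K))) := by
      have e1 : Q ^ (μ / 8) * Q ^ (-(μ / 4)) ≤ Q ^ (-(μ / (8 * K))) := by
        rw [← Real.rpow_add hQp]
        apply Real.rpow_le_rpow_of_exponent_le hQ1R
        have : μ / (8 * K) ≤ μ / 8 := by
          rw [div_le_div_iff₀ (by positivity) (by positivity)]
          nlinarith
        linarith
      have h13 : 0 < Q ^ (-(μ / 4)) := by positivity
      nlinarith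
    calc Cq K * (1 / H + 2 / (θ * lo) / N * ((1 + log H) / H) ^ K)
        ≤ Cq K * (2 * Q ^ (-(μ / (2 * K))) + C2 * Q ^ (-(μ / 4))) := by gcongr
      _ = Cq K * (2 * Q ^ (-(μ / (2 * K)))) + Cq K * (C2 * Q ^ (-(μ / 4))) := by ring
      _ ≤ _ := by linarith
  have h15 : S / N ≤ Q ^ (-(μ / (8 * K * 2 ^ K))) := by
    have e1 : Q ^ (-(μ / (8 * K))) = (Q ^ (-(μ / (8 * K * 2 ^ K)))) ^ (2 ^ K) := by
      rw [← Real.rpow_natCast (Q ^ (-(μ / (8 * K * 2 ^ K)))), ← Real.rpow_mul hQp.le]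
      congr 1
      push_cast
      field_simp
    rw [e1] at h11
    exact le_of_pow_le_pow_left₀ (by positivity) (by positivity) h11
  rw [div_le_iff₀ hNR] at h15
  have hexp : 0 < Q ^ (-(μ / (8 * K * 2 ^ K))) := by positivity
  calc S ≤ Q ^ (-(μ / (8 * K * 2 ^ K))) * N := h15
    _ ≤ Q ^ (-(μ / (8 * K * 2 ^ K))) * (2 * T * Q) := by gcongr
    _ ≤ Q ^ (-(μ / (8 * K * 2 ^ K))) * (Q ^ (μ / (16 * K * 2 ^ K)) * Q) := by gcongr
    _ = Q ^ (1 - μ / (16 * K * 2 ^ K)) := by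
        nth_rewrite 3 [← Real.rpow_one Q]
        rw [← Real.rpow_add hQp, ← Real.rpow_add hQp]
        congr 1
        field_simp
        ring

theorem gen (K : ℕ) (T μ : ℝ) (hT : 1 ≤ T) (hμ : 0 < μ) (hμ1 : μ ≤ 1 / 4) :
    ∃ ρ : ℝ, 0 < ρ ∧ ∃ Q0 : ℝ, 1 ≤ Q0 ∧ ∀ Q : ℝ, Q0 ≤ Q →
      ∀ (A B lo hi Λ θ u : ℝ) (φ : ℕ → ℝ → ℝ) (L : ℕ),
      Hy K A B lo hi φ → (L : ℝ) ≤ T * Q → A ≤ u → u + L ≤ B → 0 < θ → 0 < Λ →
      Λ ≤ Q ^ (-μ) → Q ^ (-((K : ℝ) + 1) + μ) ≤ Λ → Λ * Q ^ (-(μ / 8)) ≤ θ * lo →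
      θ * hi ≤ Λ * Q ^ (μ / 8) → ‖∑ n ∈ range L, e (θ * φ 0 (u + n))‖ ≤ Q ^ (1 - ρ) := by
  rcases Nat.eq_zero_or_pos K with rfl | hK0
  · exact gen_zero T μ hT hμ hμ1
  · exact gen_succ K hK0 T μ hT hμ hμ1

end Pool.Agent.Y934.An
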