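import Pool.Agent.Y934.An.Loc

/-!
# Exponential sums over the values of an analytic function at rational points (helper934)
-/

set_option autoImplicit false

namespace Pool.Agent.Y934.An

open Finset Real Filter Topology

/-- the derivatives -/
noncomputable def D (f : ℝ → ℝ) (m : ℕ) : ℝ → ℝ := deriv^[m] f

lemma D_analytic {f : ℝ → ℝ} {s : Set ℝ} (hf : AnalyticOnNhd ℝ f s) (m : ℕ) :
    AnalyticOnNhd ℝ (D f m) s := hf.iterated_deriv m

lemma D_deriv {f : ℝ → ℝ} {s : Set ℝ} (hf : AnalyticOnNhd ℝ f s) (m : ℕ) (t : ℝ) (ht : t ∈ s) :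
    HasDerivAt (D f m) (D f (m + 1) t) t := by
  have h1 := (D_analytic hf m t ht).differentiableAt.hasDerivAt
  have h2 : D f (m + 1) = deriv (D f m) := Function.iterate_succ_apply' _ _ _
  rw [h2]
  exact h1

lemma exists_antideriv (p : Polynomial ℝ) : ∃ P : Polynomial ℝ, Polynomial.derivative P = p := by
  induction p using Polynomial.induction_on' with
  | add p q hp hq =>
    obtain ⟨P, hP⟩ := hp
    obtain ⟨Q, hQ⟩ := hq
    exact ⟨P + Q, by rw [Polynomial.derivative_add, hP, hQ]⟩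
  | monomial n a =>
    refine ⟨Polynomial.monomial (n + 1) (a / (n + 1)), ?_⟩
    rw [Polynomial.derivative_monomial, Nat.add_sub_cancel]
    congr 1
    push_cast
    field_simp

lemma poly_of_zero {f : ℝ → ℝ} {α β : ℝ} (hαβ : α ≤ β) (hf : AnalyticOnNhd ℝ f (Set.Icc α β)) :
    ∀ k : ℕ, (∃ p : Polynomial ℝ, ∀ t ∈ Set.Icc α β, D f k t = p.eval t) →
      ∃ p : Polynomial ℝ, ∀ t ∈ Set.Icc α β, f t = p.eval t := by
  intro k
  induction k with
  | zero => exact fun h => h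
  | succ k ih =>
    rintro ⟨p, hp⟩
    apply ih
    obtain ⟨P, hP⟩ := exists_antideriv p
    have hd : ∀ t ∈ Set.Icc α β, HasDerivAt (fun t => D f k t - P.eval t) 0 t := by
      intro t ht
      have h1 := (D_deriv hf k t ht).sub (P.hasDerivAt t)
      rw [hP, hp t ht, sub_self] at h1
      exact h1
    have h2 := constant_of_has_deriv_right_zero (f := fun t => D f k t - P.eval t) (a := α) (b := β)
      (fun t ht => (hd t ht).continuousAt.continuousWithinAt)
      (fun t ht => (hd t ⟨ht.1, ht.2.le⟩).hasDerivWithinAt)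
    refine ⟨P + Polynomial.C (D f k α - P.eval α), fun t ht => ?_⟩
    have h3 := h2 t ht
    rw [Polynomial.eval_add, Polynomial.eval_C]
    linarith

lemma not_zero {f : ℝ → ℝ} {α β : ℝ} (hαβ : α ≤ β) (hf : AnalyticOnNhd ℝ f (Set.Icc α β))
    (hp : ¬ ∃ p : Polynomial ℝ, ∀ t ∈ Set.Icc α β, f t = p.eval t) (k : ℕ) (t : ℝ)
    (ht : t ∈ Set.Icc α β) : ¬ ∀ᶠ s in 𝓝 t, D f k s = 0 := by
  intro h
  apply hp
  apply poly_of_zero hαβ hf k
  refine ⟨0, fun s hs => ?_⟩
  have h1 := (D_analytic hf k).eqOn_zero_of_preconnected_of_eventuallyEq_zero isPreconnected_Icc ht h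
  rw [h1 hs]
  simp

/-- the order of vanishing is finite -/
lemma order_fin {f : ℝ → ℝ} {α β : ℝ} (hαβ : α ≤ β) (hf : AnalyticOnNhd ℝ f (Set.Icc α β))
    (hp : ¬ ∃ p : Polynomial ℝ, ∀ t ∈ Set.Icc α β, f t = p.eval t) (k : ℕ) (t : ℝ)
    (ht : t ∈ Set.Icc α β) : ∃ (n : ℕ) (c r : ℝ), 0 < c ∧ 0 < r ∧ ∀ s : ℝ, |s - t| < r →
      c * |s - t| ^ n ≤ |D f k s| := by
  obtain ⟨n, g, hg, hg0, h⟩ := (D_analytic hf k t ht).exists_eventuallyEq_pow_smul_nonzero_iff.2
    (not_zero hαβ hf hp k t ht)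
  have h1 : ∀ᶠ s in 𝓝 t, |g t| / 2 < |g s| := by
    have h2 : Tendsto (fun s => |g s|) (𝓝 t) (𝓝 |g t|) := hg.continuousAt.abs
    exact h2.eventually_const_lt (by
      have := abs_pos.2 hg0
      linarith)
  obtain ⟨r, hr, hr2⟩ := Metric.eventually_nhds_iff.1 (h.and h1)
  refine ⟨n, |g t| / 2, r, by have := abs_pos.2 hg0; positivity, hr, fun s hs => ?_⟩
  obtain ⟨h3, h4⟩ := hr2 (y := s) (by rw [Real.dist_eq]; exact hs)
  rw [h3, smul_eq_mul, abs_mul, abs_pow, mul_comm]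
  gcongr

/-- all orders up to a bound -/
lemma order_all {f : ℝ → ℝ} {α β : ℝ} (hαβ : α ≤ β) (hf : AnalyticOnNhd ℝ f (Set.Icc α β))
    (hp : ¬ ∃ p : Polynomial ℝ, ∀ t ∈ Set.Icc α β, f t = p.eval t) (K : ℕ) (t : ℝ)
    (ht : t ∈ Set.Icc α β) : ∃ (n : ℕ) (c r : ℝ), 0 < c ∧ 0 < r ∧ ∀ k ≤ K, ∀ s : ℝ, |s - t| < r →
      c * |s - t| ^ n ≤ |D f k s| := by
  choose n c r hc hr h using fun k => order_fin hαβ hf hp k t ht
  obtain ⟨c0, hc0, hc1⟩ := exists_lower c hc K
  obtain ⟨r0, hr0, hr1⟩ := exists_lower r hr K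
  refine ⟨(range (K + 1)).sup n, c0, min r0 1, hc0, lt_min hr0 one_pos, fun k hk s hs => ?_⟩
  have h1 : n k ≤ (range (K + 1)).sup n := Finset.le_sup (mem_range.2 (by omega))
  have h2 : |s - t| < r k := hs.trans_le ((min_le_left _ _).trans (hr1 k hk))
  have h3 : |s - t| ≤ 1 := (hs.trans_le (min_le_right _ _)).le
  refine le_trans ?_ (h k s h2)
  have h4 : |s - t| ^ (range (K + 1)).sup n ≤ |s - t| ^ n k :=
    pow_le_pow_of_le_one (abs_nonneg _) h3 h1
  have := hc1 k hk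
  have h5 := (hc k).le
  gcongr

/-- the local statement -/
lemma TP_local {f : ℝ → ℝ} {α β : ℝ} (hαβ : α ≤ β) (hf : AnalyticOnNhd ℝ f (Set.Icc α β))
    (hp : ¬ ∃ p : Polynomial ℝ, ∀ t ∈ Set.Icc α β, f t = p.eval t) {δ W : ℝ} (hδ : 0 < δ) (t0 : ℝ)
    (ht0 : t0 ∈ Set.Icc α β) : ∃ r : ℝ, 0 < r ∧ ∀ x y : ℝ, α ≤ x → x ≤ y → y ≤ β → t0 - r < x →
      y < t0 + r → TP f δ W x y := by
  obtain ⟨n, c, r, hc, hr, h⟩ := order_all hαβ hf hp (⌈W⌉₊ + 2) t0 ht0
  refine ⟨r, hr, fun x y hx hxy hy hx0 hy0 => ?_⟩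
  -- the pieces
  have key : ∀ x y : ℝ, α ≤ x → x ≤ y → y ≤ β → t0 - r < x → y < t0 + r → (t0 ≤ x ∨ y ≤ t0) →
      TP f δ W x y := by
    intro x y hx hxy hy hx0 hy0 hside
    have hsub : Set.Icc x y ⊆ Set.Icc α β := Set.Icc_subset_Icc hx hy
    refine TP_good (F := D f) hδ hxy (fun m t ht => D_deriv hf m t (hsub ht)) hc n ?_
    intro k _ hk t ht
    have h1 : |t - t0| < r := by
      rw [abs_lt]
      constructor <;> linarith [ht.1, ht.2]
    refine le_trans ?_ (h k hk t h1)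
    have h2 : min (t - x) (y - t) ≤ |t - t0| := by
      rcases hside with hs | hs
      · refine (min_le_left _ _).trans ?_
        refine le_trans ?_ (le_abs_self _)
        linarith
      · refine (min_le_right _ _).trans ?_
        refine le_trans ?_ (neg_le_abs _)
        linarith
    have h3 : 0 ≤ min (t - x) (y - t) := le_min (by linarith [ht.1]) (by linarith [ht.2])
    gcongr
  rcases le_or_gt t0 x with h1 | h1
  · exact key x y hx hxy hy hx0 hy0 (Or.inl h1)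
  rcases le_or_gt y t0 with h2 | h2
  · exact key x y hx hxy hy hx0 hy0 (Or.inr h2)
  · exact TP_add h1.le h2.le (key x t0 hx h1.le (by linarith) hx0 (by linarith) (Or.inr le_rfl))
      (key t0 y ht0.1 h2.le hy (by linarith) hy0 (Or.inl le_rfl))

/-- **exponential sums over the values of an analytic function at rational points** -/
theorem TP_analytic {f : ℝ → ℝ} {α β : ℝ} (hαβ : α ≤ β) (hf : AnalyticOnNhd ℝ f (Set.Icc α β))
    (hp : ¬ ∃ p : Polynomial ℝ, ∀ t ∈ Set.Icc α β, f t = p.eval t) {δ : ℝ} (W : ℝ) (hδ : 0 < δ) :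
    TP f δ W α β := by
  have hloc := fun t0 : Set.Icc α β => TP_local hαβ hf hp (W := W) hδ t0.1 t0.2
  choose r hr h using hloc
  obtain ⟨t, ht0, hmono, ⟨m, hm⟩, hcov⟩ := exists_monotone_Icc_subset_open_cover_Icc (a := α)
    (b := β) hαβ (c := fun t0 : Set.Icc α β => {s : Set.Icc α β | |s.1 - t0.1| < r t0})
    (fun t0 => isOpen_lt (by fun_prop) continuous_const)
    (fun s _ => Set.mem_iUnion.2 ⟨s, by
      show |s.1 - s.1| < r s
      rw [sub_self, abs_zero]; exact hr s⟩)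
  have hstep : ∀ n, TP f δ W (t n).1 (t (n + 1)).1 := by
    intro n
    obtain ⟨t0, ht⟩ := hcov n
    have hle : t n ≤ t (n + 1) := hmono (Nat.le_succ n)
    have h1 : |(t n).1 - t0.1| < r t0 := ht ⟨le_rfl, hle⟩
    have h2 : |(t (n + 1)).1 - t0.1| < r t0 := ht ⟨hle, le_rfl⟩
    rw [abs_lt] at h1 h2
    exact h t0 _ _ (t n).2.1 hle (t (n + 1)).2.2 (by linarith) (by linarith)
  have hall : ∀ n, TP f δ W α (t (n + 1)).1 := by
    intro n
    induction n with
    | zero =>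
      have := hstep 0
      rw [ht0] at this
      exact this
    | succ n ih =>
      exact TP_add (t (n + 1)).2.1 (hmono (Nat.le_succ (n + 1))) ih (hstep (n + 1))
  have := hall m
  rw [hm (m + 1) (Nat.le_succ m)] at this
  exact this

end Pool.Agent.Y934.An
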