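import Pool.Agent.Y934.An.Piece

/-!
# Exponential sums over the values of a smooth function at rational points: intervals (helper934)
-/

set_option autoImplicit false

namespace Pool.Agent.Y934.An

open Finset Real Filter

/-- power saving for the sums over the values of `F` at the points of an arithmetic progression with
difference `1 / Q` in `[x, y]` -/
def TP (F : ℝ → ℝ) (δ W x y : ℝ) : Prop :=
  ∃ ρ : ℝ, 0 < ρ ∧ ∃ Q0 : ℝ, 1 ≤ Q0 ∧ ∀ Q : ℝ, Q0 ≤ Q → ∀ ω : ℝ, Q ^ δ ≤ |ω| → |ω| ≤ Q ^ W →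
    ∀ (u : ℝ) (L : ℕ), x * Q ≤ u → u + L ≤ y * Q + 1 → ‖S F ω Q u L‖ ≤ Q ^ (1 - ρ)

lemma absorb (C ρ r : ℝ) (hr : r < ρ) : ∃ Q0 : ℝ, 1 ≤ Q0 ∧ ∀ Q : ℝ, Q0 ≤ Q →
    C * Q ^ (1 - ρ) ≤ Q ^ (1 - r) := by
  obtain ⟨Q0, hQ0, h⟩ := ev C (ρ - r) (by linarith)
  refine ⟨Q0, hQ0, fun Q hQ => ?_⟩
  have hQp : 0 < Q := by linarith [hQ0.trans hQ]
  calc C * Q ^ (1 - ρ) ≤ Q ^ (ρ - r) * Q ^ (1 - ρ) := by
        have := h Q hQ
        gcongr
    _ = Q ^ (1 - r) := by
        rw [← Real.rpow_add hQp]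
        congr 1
        ring

lemma exists_lower (f : ℕ → ℝ) (hf : ∀ k, 0 < f k) (N : ℕ) : ∃ r : ℝ, 0 < r ∧ ∀ k ≤ N, r ≤ f k := by
  induction N with
  | zero => exact ⟨f 0, hf 0, fun k hk => by rw [Nat.le_zero.1 hk]⟩
  | succ N ih =>
    obtain ⟨r, hr, h⟩ := ih
    refine ⟨min r (f (N + 1)), lt_min hr (hf _), fun k hk => ?_⟩
    rcases Nat.lt_or_ge k (N + 1) with h1 | h1
    · exact (min_le_left _ _).trans (h k (by omega))
    · rw [show k = N + 1 by omega]
      exact min_le_right _ _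

lemma exists_upper (f : ℕ → ℝ) (N : ℕ) : ∃ R : ℝ, 1 ≤ R ∧ ∀ k ≤ N, f k ≤ R := by
  induction N with
  | zero => exact ⟨max 1 (f 0), le_max_left _ _, fun k hk => by
      rw [Nat.le_zero.1 hk]; exact le_max_right _ _⟩
  | succ N ih =>
    obtain ⟨R, hR, h⟩ := ih
    refine ⟨max R (f (N + 1)), hR.trans (le_max_left _ _), fun k hk => ?_⟩
    rcases Nat.lt_or_ge k (N + 1) with h1 | h1
    · exact (h k (by omega)).trans (le_max_left _ _)
    · rw [show k = N + 1 by omega]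
      exact le_max_right _ _

/-- gluing -/
lemma TP_add {F : ℝ → ℝ} {δ W x y z : ℝ} (hxy : x ≤ y) (hyz : y ≤ z) (h1 : TP F δ W x y)
    (h2 : TP F δ W y z) : TP F δ W x z := by
  obtain ⟨ρ1, hρ1, Q1, hQ1, h1⟩ := h1
  obtain ⟨ρ2, hρ2, Q2, hQ2, h2⟩ := h2
  set ρ : ℝ := min ρ1 ρ2 with hρ
  have hρ0 : 0 < ρ := lt_min hρ1 hρ2
  obtain ⟨Q3, hQ3, h3⟩ := absorb 2 ρ (ρ / 2) (by linarith)
  refine ⟨ρ / 2, by positivity, max (max Q1 Q2) Q3, hQ3.trans (le_max_right _ _), ?_⟩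
  intro Q hQ ω hω1 hω2 u L hu huL
  have hQ1' : Q1 ≤ Q := ((le_max_left _ _).trans (le_max_left _ _)).trans hQ
  have hQ2' : Q2 ≤ Q := ((le_max_right _ _).trans (le_max_left _ _)).trans hQ
  have hQ3' : Q3 ≤ Q := (le_max_right _ _).trans hQ
  have hQR : 1 ≤ Q := hQ1.trans hQ1'
  have hQp : 0 < Q := by linarith
  have e1 : Q ^ (1 - ρ1) ≤ Q ^ (1 - ρ) := by
    apply Real.rpow_le_rpow_of_exponent_le hQR
    have := min_le_left ρ1 ρ2
    linarith
  have e2 : Q ^ (1 - ρ2) ≤ Q ^ (1 - ρ) := by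
    apply Real.rpow_le_rpow_of_exponent_le hQR
    have := min_le_right ρ1 ρ2
    linarith
  have e3 := h3 Q hQ3'
  have e4 : 0 < Q ^ (1 - ρ) := by positivity
  rcases lt_or_ge (y * Q) u with hyu | hyu
  · have := h2 Q hQ2' ω hω1 hω2 u L hyu.le huL
    linarith
  · set L1 : ℕ := min L (⌊y * Q - u⌋₊ + 1) with hL1
    obtain ⟨L2, hL2⟩ : ∃ L2, L = L1 + L2 := ⟨L - L1, by
      have : L1 ≤ L := min_le_left _ _
      omega⟩
    have hfl : (⌊y * Q - u⌋₊ : ℝ) ≤ y * Q - u := Nat.floor_le (by linarith)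
    have a1 : (L1 : ℝ) ≤ (⌊y * Q - u⌋₊ : ℝ) + 1 := by
      have : L1 ≤ ⌊y * Q - u⌋₊ + 1 := min_le_right _ _
      exact_mod_cast this
    have h5 := h1 Q hQ1' ω hω1 hω2 u L1 hu (by linarith)
    rw [hL2, S_add]
    refine (norm_add_le _ _).trans ?_
    rcases Nat.eq_zero_or_pos L2 with h6 | h6
    · rw [h6]
      have : ‖S F ω Q (u + L1) 0‖ ≤ ((0 : ℕ) : ℝ) := S_le _ _ _ _ _
      rw [Nat.cast_zero] at this
      linarith
    · have h7 : L1 = ⌊y * Q - u⌋₊ + 1 := by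
        rcases min_choice L (⌊y * Q - u⌋₊ + 1) with h8 | h8
        · rw [← hL1] at h8; omega
        · rw [← hL1] at h8; exact h8
      have h8 := Nat.lt_floor_add_one (y * Q - u)
      have h9 : (L1 : ℝ) = (⌊y * Q - u⌋₊ : ℝ) + 1 := by rw [h7]; push_cast; ring
      have h10 := h2 Q hQ2' ω hω1 hω2 (u + L1) L2 (by linarith) (by
        rw [hL2] at huL
        push_cast at huL
        linarith)
      linarith

lemma sign_const {g : ℝ → ℝ} {x y : ℝ} (hg : ContinuousOn g (Set.Icc x y))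
    (h0 : ∀ t ∈ Set.Icc x y, g t ≠ 0) :
    (∀ t ∈ Set.Icc x y, 0 < g t) ∨ (∀ t ∈ Set.Icc x y, g t < 0) := by
  by_contra hcon
  push Not at hcon
  obtain ⟨⟨s, hs, hs1⟩, ⟨t, ht, ht1⟩⟩ := hcon
  have hc := isPreconnected_Icc (a := x) (b := y)
  obtain ⟨z, hz, hz2⟩ := hc.intermediate_value hs ht hg ⟨hs1, ht1⟩
  exact h0 z hz hz2

/-- **a good piece**: the derivatives vanish at most at the end points, to a finite order -/
theorem TP_good {F : ℕ → ℝ → ℝ} {δ W x y : ℝ} (hδ : 0 < δ) (hxy : x ≤ y)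
    (hd : ∀ m, ∀ t ∈ Set.Icc x y, HasDerivAt (F m) (F (m + 1) t) t) {c : ℝ} (hc : 0 < c) (m0 : ℕ)
    (hlow : ∀ k, 1 ≤ k → k ≤ ⌈W⌉₊ + 2 → ∀ t ∈ Set.Icc x y,
      c * (min (t - x) (y - t)) ^ m0 ≤ |F k t|) : TP (F 0) δ W x y := by
  set μ : ℝ := min δ (1 / 4) with hμ
  have hμ0 : 0 < μ := lt_min hδ (by norm_num)
  have hμ1 : μ ≤ 1 / 4 := min_le_right _ _
  have hμδ : μ ≤ δ := min_le_left _ _
  set T : ℝ := y - x + 1 with hT
  have hT1 : 1 ≤ T := by linarith
  set η : ℝ := μ / (16 * (m0 + 1)) with hη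
  have hη0 : 0 < η := by positivity
  have hη1 : η * m0 ≤ μ / 16 := by
    rw [hη, div_mul_eq_mul_div, div_le_div_iff₀ (by positivity) (by norm_num)]
    nlinarith
  have hη2 : η ≤ 1 / 64 := by
    rw [hη, div_le_div_iff₀ (by positivity) (by norm_num)]
    have : (0 : ℝ) ≤ m0 := Nat.cast_nonneg _
    nlinarith
  set Km : ℕ := ⌈W⌉₊ with hKm
  -- continuity and upper bounds
  have hcont : ∀ m, ContinuousOn (F m) (Set.Icc x y) := fun m t ht =>
    (hd m t ht).continuousAt.continuousWithinAt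
  have hbd : ∀ m : ℕ, ∃ C : ℝ, ∀ t ∈ Set.Icc x y, |F m t| ≤ C := fun m =>
    isCompact_Icc.exists_bound_of_continuousOn (hcont m)
  choose Cb hCb using hbd
  obtain ⟨C, hC1, hC⟩ := exists_upper Cb (Km + 2)
  have hCF : ∀ k ≤ Km + 2, ∀ t ∈ Set.Icc x y, |F k t| ≤ C := fun k hk t ht =>
    (hCb k t ht).trans (hC k hk)
  -- the pieces of all orders
  choose ρf hρf Qf hQf hpiece using fun K : ℕ => piece K T μ hT1 hμ0 hμ1
  obtain ⟨r, hr, hrρ⟩ := exists_lower ρf hρf Km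
  obtain ⟨R, hR1, hRQ⟩ := exists_upper Qf Km
  set ρ : ℝ := min r η with hρ
  have hρ0 : 0 < ρ := lt_min hr hη0
  obtain ⟨Q1, hQ1, h1⟩ := ev C (μ / 8) (by positivity)
  obtain ⟨Q2, hQ2, h2⟩ := ev (1 / c) (μ / 16) (by positivity)
  obtain ⟨Q3, hQ3, h3⟩ := absorb 8 ρ (ρ / 2) (by linarith)
  refine ⟨ρ / 2, by positivity, max (max Q1 Q2) (max Q3 R), ?_, ?_⟩
  · exact hQ1.trans ((le_max_left _ _).trans (le_max_left _ _))
  intro Q hQ ω hω1 hω2 u L hu huL
  have hQa := h1 Q (((le_max_left _ _).trans (le_max_left _ _)).trans hQ)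
  have hQb := h2 Q (((le_max_right _ _).trans (le_max_left _ _)).trans hQ)
  have hQc := h3 Q (((le_max_left _ _).trans (le_max_right _ _)).trans hQ)
  have hQd : R ≤ Q := ((le_max_right _ _).trans (le_max_right _ _)).trans hQ
  have hQR : 1 ≤ Q := hR1.trans hQd
  have hQp : 0 < Q := by linarith
  have hpow1 : Q ^ (-η) * Q = Q ^ (1 - η) := by
    nth_rewrite 2 [← Real.rpow_one Q]
    rw [← Real.rpow_add hQp]
    congr 1
    ring
  have hρη : Q ^ (1 - η) ≤ Q ^ (1 - ρ) := by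
    apply Real.rpow_le_rpow_of_exponent_le hQR
    have := min_le_right r η
    linarith
  have hone : (1 : ℝ) ≤ Q ^ (1 - ρ) := by
    apply Real.one_le_rpow hQR
    have := min_le_right r η
    linarith
  set x' : ℝ := x + Q ^ (-η) with hx'
  set y' : ℝ := y - Q ^ (-η) with hy'
  have hL0 := S_le (F 0) ω Q u L
  have hη' : 0 < Q ^ (-η) := by positivity
  -- the first part
  set L1 : ℕ := min L ⌈x' * Q + 1 - u⌉₊ with hL1
  have hL1L : L1 ≤ L := min_le_left _ _
  have hL1b : (L1 : ℝ) ≤ Q ^ (1 - η) + 2 := by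
    have h5 : (L1 : ℝ) ≤ (⌈x' * Q + 1 - u⌉₊ : ℝ) := by exact_mod_cast min_le_right _ _
    rcases le_or_gt (x' * Q + 1 - u) 0 with h6 | h6
    · rw [Nat.ceil_eq_zero.2 h6] at h5
      have : 0 < Q ^ (1 - η) := by positivity
      push_cast at h5
      linarith
    · have h7 := Nat.ceil_lt_add_one h6.le
      have h8 : x' * Q + 1 - u ≤ Q ^ (1 - η) + 1 := by
        rw [hx', add_mul, hpow1]
        linarith
      linarith
  -- the middle part
  set L2 : ℕ := min (L - L1) ⌊y' * Q - (u + L1)⌋₊ with hL2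
  obtain ⟨L3, hL3⟩ : ∃ L3, L = L1 + (L2 + L3) := ⟨L - L1 - L2, by
    have : L2 ≤ L - L1 := min_le_left _ _
    omega⟩
  have hL3b : (L3 : ℝ) ≤ Q ^ (1 - η) + 2 := by
    rcases Nat.eq_zero_or_pos L3 with h6 | h6
    · rw [h6]
      have : 0 < Q ^ (1 - η) := by positivity
      push_cast
      linarith
    · have h7 : L2 = ⌊y' * Q - (u + L1)⌋₊ := by
        rcases min_choice (L - L1) ⌊y' * Q - (u + L1)⌋₊ with h8 | h8
        · rw [← hL2] at h8; omega
        · rw [← hL2] at h8; exact h8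
      have h8 := Nat.lt_floor_add_one (y' * Q - (u + L1))
      rw [← h7] at h8
      have h9 : (L : ℝ) = L1 + (L2 + L3) := by rw [hL3]; push_cast; ring
      have h10 : y' * Q = y * Q - Q ^ (1 - η) := by rw [hy', sub_mul, hpow1]
      linarith
  have hsplit : S (F 0) ω Q u L = S (F 0) ω Q u L1 + (S (F 0) ω Q (u + L1) L2 +
      S (F 0) ω Q (u + L1 + L2) L3) := by
    rw [hL3, S_add, S_add]
  have b1 := S_le (F 0) ω Q u L1
  have b3 := S_le (F 0) ω Q (u + L1 + L2) L3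
  have b2 : ‖S (F 0) ω Q (u + L1) L2‖ ≤ Q ^ (1 - ρ) := by
    rcases Nat.eq_zero_or_pos L2 with h6 | h6
    · rw [h6]
      refine (S_le _ _ _ _ _).trans ?_
      push_cast
      linarith
    have h7 : 1 ≤ ⌊y' * Q - (u + L1)⌋₊ := by
      have : L2 ≤ ⌊y' * Q - (u + L1)⌋₊ := min_le_right _ _
      omega
    have h8 : (1 : ℝ) ≤ y' * Q - (u + L1) := by
      have := (Nat.one_le_floor_iff _).1 h7
      exact this
    have hend : u + L1 + L2 ≤ y' * Q := by
      have h9 : (L2 : ℝ) ≤ (⌊y' * Q - (u + L1)⌋₊ : ℝ) := by exact_mod_cast min_le_right _ _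
      have h10 : (⌊y' * Q - (u + L1)⌋₊ : ℝ) ≤ y' * Q - (u + L1) := Nat.floor_le (by linarith)
      linarith
    have hL1eq : L1 = ⌈x' * Q + 1 - u⌉₊ := by
      rcases min_choice L ⌈x' * Q + 1 - u⌉₊ with h9 | h9
      · rw [← hL1] at h9; omega
      · rw [← hL1] at h9; exact h9
    have hstart : x' * Q + 1 ≤ u + L1 := by
      have := Nat.le_ceil (x' * Q + 1 - u)
      rw [← hL1eq] at this
      linarith
    have hxy' : x' ≤ y' := by
      have : x' * Q ≤ y' * Q := by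
        have : (0 : ℝ) ≤ L2 := Nat.cast_nonneg _
        linarith
      exact le_of_mul_le_mul_right this hQp
    have hsub : Set.Icc x' y' ⊆ Set.Icc x y := Set.Icc_subset_Icc (by linarith) (by linarith)
    -- the lower bound
    have hlow' : ∀ k, 1 ≤ k → k ≤ Km + 2 → ∀ t ∈ Set.Icc x' y', Q ^ (-(μ / 8)) ≤ |F k t| := by
      intro k hk1 hk2 t ht
      refine le_trans ?_ (hlow k hk1 hk2 t (hsub ht))
      have h9 : Q ^ (-η) ≤ min (t - x) (y - t) := le_min (by linarith [ht.1]) (by linarith [ht.2])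
      calc Q ^ (-(μ / 8)) = Q ^ (-(μ / 16)) * Q ^ (-(μ / 16)) := by
            rw [← Real.rpow_add hQp]; congr 1; ring
        _ ≤ c * Q ^ (-(η * m0)) := by
            have h10 : Q ^ (-(μ / 16)) ≤ c := by
              rw [Real.rpow_neg hQp.le, inv_le_comm₀ (by positivity) hc, ← one_div]
              exact hQb
            have h11 : Q ^ (-(μ / 16)) ≤ Q ^ (-(η * m0)) := by
              apply Real.rpow_le_rpow_of_exponent_le hQR
              linarith
            gcongr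
        _ = c * (Q ^ (-η)) ^ m0 := by
            rw [← Real.rpow_natCast, ← Real.rpow_mul hQp.le]
            congr 2
            ring
        _ ≤ c * (min (t - x) (y - t)) ^ m0 := by gcongr
    have hne : ∀ k, 1 ≤ k → k ≤ Km + 2 → ∀ t ∈ Set.Icc x' y', F k t ≠ 0 := by
      intro k hk1 hk2 t ht h0
      have := hlow' k hk1 hk2 t ht
      rw [h0, abs_zero] at this
      have h9 : 0 < Q ^ (-(μ / 8)) := by positivity
      linarith
    -- the order
    have hω0 : 0 ≤ |ω| := abs_nonneg _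
    classical
    have hex : ∃ K : ℕ, |ω| * (Q ^ (K + 1))⁻¹ ≤ Q ^ (-μ) := by
      refine ⟨Km, ?_⟩
      have h9 : (Q ^ (Km + 1))⁻¹ = Q ^ (-((Km : ℝ) + 1)) := by
        rw [Real.rpow_neg hQp.le]
        congr 1
        rw [← Real.rpow_natCast]
        push_cast
        rfl
      rw [h9]
      calc |ω| * Q ^ (-((Km : ℝ) + 1)) ≤ Q ^ W * Q ^ (-((Km : ℝ) + 1)) := by gcongr
        _ = Q ^ (W + -((Km : ℝ) + 1)) := (Real.rpow_add hQp _ _).symm
        _ ≤ Q ^ (-μ) := by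
            apply Real.rpow_le_rpow_of_exponent_le hQR
            have := Nat.le_ceil W
            linarith
    set K := Nat.find hex with hK
    have hKspec := Nat.find_spec hex
    rw [← hK] at hKspec
    have hKle : K ≤ Km := Nat.find_min' hex (by
      have h9 : (Q ^ (Km + 1))⁻¹ = Q ^ (-((Km : ℝ) + 1)) := by
        rw [Real.rpow_neg hQp.le]
        congr 1
        rw [← Real.rpow_natCast]
        push_cast
        rfl
      rw [h9]
      calc |ω| * Q ^ (-((Km : ℝ) + 1)) ≤ Q ^ W * Q ^ (-((Km : ℝ) + 1)) := by gcongr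
        _ = Q ^ (W + -((Km : ℝ) + 1)) := (Real.rpow_add hQp _ _).symm
        _ ≤ Q ^ (-μ) := by
            apply Real.rpow_le_rpow_of_exponent_le hQR
            have := Nat.le_ceil W
            linarith)
    have hKlow : Q ^ (-((K : ℝ) + 1) + μ) ≤ |ω| * (Q ^ (K + 1))⁻¹ := by
      have h9 : (Q ^ (K + 1))⁻¹ = Q ^ (-((K : ℝ) + 1)) := by
        rw [Real.rpow_neg hQp.le]
        congr 1
        rw [← Real.rpow_natCast]
        push_cast
        rfl
      rcases Nat.eq_zero_or_pos K with h10 | h10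
      · rw [h9]
        calc Q ^ (-((K : ℝ) + 1) + μ) = Q ^ μ * Q ^ (-((K : ℝ) + 1)) := by
              rw [← Real.rpow_add hQp]; congr 1; ring
          _ ≤ |ω| * Q ^ (-((K : ℝ) + 1)) := by
              have : Q ^ μ ≤ Q ^ δ := Real.rpow_le_rpow_of_exponent_le hQR hμδ
              have := this.trans hω1
              gcongr
      · have h11 := Nat.find_min hex (m := K - 1) (by omega)
        rw [Nat.sub_add_cancel h10] at h11
        push Not at h11
        have hK1 : (1 : ℝ) ≤ K := by exact_mod_cast h10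
        calc Q ^ (-((K : ℝ) + 1) + μ) ≤ Q ^ (-μ + -1) := by
              apply Real.rpow_le_rpow_of_exponent_le hQR
              linarith
          _ = Q ^ (-μ) * Q⁻¹ := by rw [Real.rpow_add hQp, Real.rpow_neg_one]
          _ ≤ |ω| * (Q ^ K)⁻¹ * Q⁻¹ := by gcongr
          _ = |ω| * (Q ^ (K + 1))⁻¹ := by
              rw [pow_succ, mul_inv, mul_assoc]
    -- the signs
    obtain ⟨σ, hσ, hσ1, hσ2⟩ : ∃ σ : ℝ, (σ = 1 ∨ σ = -1) ∧
        (∀ t ∈ Set.Icc x' y', Q ^ (-(μ / 8)) ≤ σ * F (K + 1) t) ∧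
        (∀ t ∈ Set.Icc x' y', σ * F (K + 1) t ≤ Q ^ (μ / 8)) := by
      have hup : ∀ t ∈ Set.Icc x' y', |F (K + 1) t| ≤ Q ^ (μ / 8) := fun t ht =>
        (hCF (K + 1) (by omega) t (hsub ht)).trans hQa
      rcases sign_const ((hcont (K + 1)).mono hsub) (hne (K + 1) (by omega) (by omega)) with h9 | h9
      · refine ⟨1, Or.inl rfl, fun t ht => ?_, fun t ht => ?_⟩
        · have := hlow' (K + 1) (by omega) (by omega) t ht
          rwa [abs_of_pos (h9 t ht), ← one_mul (F (K + 1) t)] at this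
        · have := hup t ht
          rwa [abs_of_pos (h9 t ht), ← one_mul (F (K + 1) t)] at this
      · refine ⟨-1, Or.inr rfl, fun t ht => ?_, fun t ht => ?_⟩
        · have := hlow' (K + 1) (by omega) (by omega) t ht
          rwa [abs_of_neg (h9 t ht), ← neg_one_mul (F (K + 1) t)] at this
        · have := hup t ht
          rwa [abs_of_neg (h9 t ht), ← neg_one_mul (F (K + 1) t)] at this
    have hmono : (∀ t ∈ Set.Icc x' y', F (K + 2) t ≤ 0) ∨ (∀ t ∈ Set.Icc x' y', 0 ≤ F (K + 2) t) := by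
      rcases sign_const ((hcont (K + 2)).mono hsub) (hne (K + 2) (by omega) (by omega)) with h9 | h9
      · exact Or.inr fun t ht => (h9 t ht).le
      · exact Or.inl fun t ht => (h9 t ht).le
    have hLT : (L2 : ℝ) ≤ T * Q := by
      have h9 : (L2 : ℝ) ≤ L := by
        have : L2 ≤ L := by omega
        exact_mod_cast this
      have h10 : (L : ℝ) ≤ (y - x) * Q + 1 := by linarith
      calc (L2 : ℝ) ≤ (y - x) * Q + 1 := h9.trans h10
        _ ≤ (y - x) * Q + Q := by linarith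
        _ = T * Q := by rw [hT]; ring
    have key := hpiece K Q ((hRQ K hKle).trans hQd) x' y' _ _ σ ω (u + L1) F L2 hσ
      (fun m _ t ht => hd m t (hsub ht)) hσ1 hσ2 hmono hLT hstart hend hKspec hKlow le_rfl le_rfl
    refine key.trans ?_
    apply Real.rpow_le_rpow_of_exponent_le hQR
    have := min_le_left r η
    have := hrρ K hKle
    linarith
  rw [hsplit]
  refine (norm_add_le _ _).trans ((add_le_add le_rfl (norm_add_le _ _)).trans ?_)
  linarith

end Pool.Agent.Y934.An
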