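import Pool.Agent.Y934.An.Core

/-!
# Exponential sums over the values of a smooth function at rational points: one piece (helper934)
-/

set_option autoImplicit false

namespace Pool.Agent.Y934.An

open Finset Real Filter
open Pool.Agent.H469R2.NK (e norm_e e_add norm_sum_neg Cq Cq_pos)
open Pool.Agent.TH915.PW (Hy)

/-- the sum over the numbers `ω F((u + n)/Q)`, `n < L` -/
noncomputable def S (F : ℝ → ℝ) (ω Q u : ℝ) (L : ℕ) : ℂ := ∑ n ∈ range L, e (ω * F ((u + n) / Q))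

lemma S_le (F : ℝ → ℝ) (ω Q u : ℝ) (L : ℕ) : ‖S F ω Q u L‖ ≤ L := by
  unfold S
  refine (norm_sum_le _ _).trans ?_
  simp [norm_e]

lemma S_add (F : ℝ → ℝ) (ω Q u : ℝ) (L1 L2 : ℕ) :
    S F ω Q u (L1 + L2) = S F ω Q u L1 + S F ω Q (u + L1) L2 := by
  unfold S
  rw [Finset.sum_range_add]
  congr 1
  refine sum_congr rfl fun n _ => ?_
  congr 3
  push_cast
  ring

lemma S_neg (F : ℝ → ℝ) (ω Q u : ℝ) (L : ℕ) : ‖S F (-ω) Q u L‖ = ‖S F ω Q u L‖ := by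
  unfold S
  rw [← norm_sum_neg]
  congr 1
  refine sum_congr rfl fun n _ => ?_
  congr 1
  ring

lemma S_reflect (F : ℝ → ℝ) (ω Q u : ℝ) (L : ℕ) :
    S F ω Q u L = S (fun t => F (-t)) ω Q (-(u + L - 1)) L := by
  unfold S
  rw [← Finset.sum_range_reflect]
  refine sum_congr rfl fun n hn => ?_
  have hn' : n + 1 ≤ L := mem_range.1 hn
  have h1 : ((L - 1 - n : ℕ) : ℝ) = (L : ℝ) - 1 - n := by
    rw [Nat.sub_sub, Nat.cast_sub (by omega)]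
    push_cast
    ring
  have h2 : (u + ((L - 1 - n : ℕ) : ℝ)) / Q = -((-(u + L - 1) + n) / Q) := by
    rw [h1]; ring
  simp only [h2]

lemma hy_scale {K : ℕ} {x y lo hi σ Q : ℝ} (hQ : 0 < Q) {F : ℕ → ℝ → ℝ}
    (hd : ∀ m ≤ K + 1, ∀ t ∈ Set.Icc x y, HasDerivAt (F m) (F (m + 1) t) t)
    (h1 : ∀ t ∈ Set.Icc x y, lo ≤ σ * F (K + 1) t) (h2 : ∀ t ∈ Set.Icc x y, σ * F (K + 1) t ≤ hi)
    (h3 : ∀ t ∈ Set.Icc x y, σ * F (K + 2) t ≤ 0) :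
    Hy K (x * Q) (y * Q) (lo * (Q ^ (K + 1))⁻¹) (hi * (Q ^ (K + 1))⁻¹)
      (fun m t => σ * (Q ^ m)⁻¹ * F m (t / Q)) := by
  have hmem : ∀ t ∈ Set.Icc (x * Q) (y * Q), t / Q ∈ Set.Icc x y := by
    intro t ht
    exact ⟨by rw [le_div_iff₀ hQ]; exact ht.1, by rw [div_le_iff₀ hQ]; exact ht.2⟩
  have hQk : ∀ k : ℕ, 0 < (Q ^ k)⁻¹ := fun k => by positivity
  constructor
  · intro m hm t ht
    have h4 := (hd m hm (t / Q) (hmem t ht)).comp t ((hasDerivAt_id t).div_const Q)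
    have h5 := h4.const_mul (σ * (Q ^ m)⁻¹)
    have e1 : σ * (Q ^ m)⁻¹ * (F (m + 1) (t / Q) * (1 / Q)) =
        σ * (Q ^ (m + 1))⁻¹ * F (m + 1) (t / Q) := by
      rw [pow_succ]
      field_simp
    rw [e1] at h5
    exact h5
  · intro t ht
    calc lo * (Q ^ (K + 1))⁻¹ ≤ (σ * F (K + 1) (t / Q)) * (Q ^ (K + 1))⁻¹ :=
          mul_le_mul_of_nonneg_right (h1 _ (hmem t ht)) (hQk _).le
      _ = _ := by ring
  · intro t ht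
    calc σ * (Q ^ (K + 1))⁻¹ * F (K + 1) (t / Q) = (σ * F (K + 1) (t / Q)) * (Q ^ (K + 1))⁻¹ := by
          ring
      _ ≤ hi * (Q ^ (K + 1))⁻¹ := mul_le_mul_of_nonneg_right (h2 _ (hmem t ht)) (hQk _).le
  · intro t ht
    calc σ * (Q ^ (K + 2))⁻¹ * F (K + 2) (t / Q) = (σ * F (K + 2) (t / Q)) * (Q ^ (K + 2))⁻¹ := by
          ring
      _ ≤ 0 := mul_nonpos_of_nonpos_of_nonneg (h3 _ (hmem t ht)) (hQk _).le

/-- one piece, decreasing derivative -/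
theorem piece_dec (K : ℕ) (T μ : ℝ) (hT : 1 ≤ T) (hμ : 0 < μ) (hμ1 : μ ≤ 1 / 4) :
    ∃ ρ : ℝ, 0 < ρ ∧ ∃ Q0 : ℝ, 1 ≤ Q0 ∧ ∀ Q : ℝ, Q0 ≤ Q →
      ∀ (x y lo hi σ ω u : ℝ) (F : ℕ → ℝ → ℝ) (L : ℕ), (σ = 1 ∨ σ = -1) →
      (∀ m ≤ K + 1, ∀ t ∈ Set.Icc x y, HasDerivAt (F m) (F (m + 1) t) t) →
      (∀ t ∈ Set.Icc x y, lo ≤ σ * F (K + 1) t) → (∀ t ∈ Set.Icc x y, σ * F (K + 1) t ≤ hi) →
      (∀ t ∈ Set.Icc x y, σ * F (K + 2) t ≤ 0) →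
      (L : ℝ) ≤ T * Q → x * Q ≤ u → u + L ≤ y * Q →
      |ω| * (Q ^ (K + 1))⁻¹ ≤ Q ^ (-μ) → Q ^ (-((K : ℝ) + 1) + μ) ≤ |ω| * (Q ^ (K + 1))⁻¹ →
      Q ^ (-(μ / 8)) ≤ lo → hi ≤ Q ^ (μ / 8) → ‖S (F 0) ω Q u L‖ ≤ Q ^ (1 - ρ) := by
  obtain ⟨ρ, hρ, Q0, hQ0, h⟩ := gen K T μ hT hμ hμ1
  refine ⟨ρ, hρ, Q0, hQ0, ?_⟩
  intro Q hQ x y lo hi σ ω u F L hσ hd h1 h2 h3 hL hu huL h4 h5 h6 h7
  have hQ1 : 1 ≤ Q := hQ0.trans hQ
  have hQp : 0 < Q := by linarith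
  have hΛ : 0 < |ω| * (Q ^ (K + 1))⁻¹ := lt_of_lt_of_le (by positivity) h5
  have hω : 0 < |ω| := by
    rcases (abs_nonneg ω).eq_or_lt with h8 | h8
    · rw [← h8, zero_mul] at hΛ
      exact absurd hΛ (lt_irrefl _)
    · exact h8
  have key := h Q hQ _ _ _ _ _ |ω| u _ L (hy_scale hQp hd h1 h2 h3) hL hu huL hω hΛ h4 h5
    (by
      calc |ω| * (Q ^ (K + 1))⁻¹ * Q ^ (-(μ / 8)) ≤ |ω| * (Q ^ (K + 1))⁻¹ * lo := by gcongr
        _ = _ := by ring)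
    (by
      calc |ω| * (hi * (Q ^ (K + 1))⁻¹) = |ω| * (Q ^ (K + 1))⁻¹ * hi := by ring
        _ ≤ _ := by gcongr)
  have e1 : ‖S (F 0) ω Q u L‖ = ‖∑ n ∈ range L, e (|ω| * (σ * (Q ^ 0)⁻¹ * F 0 ((u + n) / Q)))‖ := by
    have e2 : ∑ n ∈ range L, e (|ω| * (σ * (Q ^ 0)⁻¹ * F 0 ((u + n) / Q))) =
        S (F 0) (σ * |ω|) Q u L := by
      unfold S
      refine sum_congr rfl fun n _ => ?_
      congr 1
      rw [pow_zero]
      ring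
    rw [e2]
    rcases abs_choice ω with h8 | h8 <;> rcases hσ with rfl | rfl <;> rw [h8]
    · rw [one_mul]
    · rw [neg_one_mul, S_neg]
    · rw [one_mul, S_neg]
    · rw [neg_one_mul, neg_neg]
  rw [e1]
  exact key

/-- one piece -/
theorem piece (K : ℕ) (T μ : ℝ) (hT : 1 ≤ T) (hμ : 0 < μ) (hμ1 : μ ≤ 1 / 4) :
    ∃ ρ : ℝ, 0 < ρ ∧ ∃ Q0 : ℝ, 1 ≤ Q0 ∧ ∀ Q : ℝ, Q0 ≤ Q →
      ∀ (x y lo hi σ ω u : ℝ) (F : ℕ → ℝ → ℝ) (L : ℕ), (σ = 1 ∨ σ = -1) →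
      (∀ m ≤ K + 1, ∀ t ∈ Set.Icc x y, HasDerivAt (F m) (F (m + 1) t) t) →
      (∀ t ∈ Set.Icc x y, lo ≤ σ * F (K + 1) t) → (∀ t ∈ Set.Icc x y, σ * F (K + 1) t ≤ hi) →
      ((∀ t ∈ Set.Icc x y, F (K + 2) t ≤ 0) ∨ (∀ t ∈ Set.Icc x y, 0 ≤ F (K + 2) t)) →
      (L : ℝ) ≤ T * Q → x * Q + 1 ≤ u → u + L ≤ y * Q →
      |ω| * (Q ^ (K + 1))⁻¹ ≤ Q ^ (-μ) → Q ^ (-((K : ℝ) + 1) + μ) ≤ |ω| * (Q ^ (K + 1))⁻¹ →
      Q ^ (-(μ / 8)) ≤ lo → hi ≤ Q ^ (μ / 8) → ‖S (F 0) ω Q u L‖ ≤ Q ^ (1 - ρ) := by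
  obtain ⟨ρ, hρ, Q0, hQ0, h⟩ := piece_dec K T μ hT hμ hμ1
  refine ⟨ρ, hρ, Q0, hQ0, ?_⟩
  intro Q hQ x y lo hi σ ω u F L hσ hd h1 h2 h3 hL hu huL h4 h5 h6 h7
  have hsgn : (∀ t ∈ Set.Icc x y, σ * F (K + 2) t ≤ 0) ∨ (∀ t ∈ Set.Icc x y, 0 ≤ σ * F (K + 2) t) := by
    rcases hσ with rfl | rfl <;> rcases h3 with h3 | h3
    · left; intro t ht; rw [one_mul]; exact h3 t ht
    · right; intro t ht; rw [one_mul]; exact h3 t ht
    · right; intro t ht; have := h3 t ht; linarith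
    · left; intro t ht; have := h3 t ht; linarith
  rcases hsgn with h8 | h8
  · exact h Q hQ x y lo hi σ ω u F L hσ hd h1 h2 h8 hL (by linarith) huL h4 h5 h6 h7
  · rw [S_reflect]
    have hsq : ((-1 : ℝ) ^ (K + 1)) * (-1) ^ (K + 1) = 1 := by
      rw [← mul_pow]; norm_num
    have key : ‖S ((fun m t => (-1) ^ m * F m (-t) : ℕ → ℝ → ℝ) 0) ω Q (-(u + L - 1)) L‖ ≤
        Q ^ (1 - ρ) := by
      refine h Q hQ (-y) (-x) lo hi (σ * (-1) ^ (K + 1)) ω (-(u + L - 1))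
        (fun m t => (-1) ^ m * F m (-t)) L ?_ ?_ ?_ ?_ ?_ hL ?_ ?_ h4 h5 h6 h7
      · rcases hσ with rfl | rfl <;> rcases neg_one_pow_eq_or ℝ (K + 1) with h9 | h9 <;>
          rw [h9] <;> norm_num
      · intro m hm t ht
        have ht' : -t ∈ Set.Icc x y := ⟨by linarith [ht.2], by linarith [ht.1]⟩
        have h9 := (hd m hm (-t) ht').comp t (hasDerivAt_neg t)
        have h10 := h9.const_mul ((-1 : ℝ) ^ m)
        have e1 : (-1 : ℝ) ^ m * (F (m + 1) (-t) * -1) = (-1) ^ (m + 1) * F (m + 1) (-t) := by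
          rw [pow_succ]; ring
        rw [e1] at h10
        exact h10
      · intro t ht
        have ht' : -t ∈ Set.Icc x y := ⟨by linarith [ht.2], by linarith [ht.1]⟩
        have e1 : σ * (-1) ^ (K + 1) * ((-1) ^ (K + 1) * F (K + 1) (-t)) = σ * F (K + 1) (-t) := by
          rw [mul_assoc, ← mul_assoc ((-1 : ℝ) ^ (K + 1)), hsq, one_mul]
        rw [e1]
        exact h1 _ ht'
      · intro t ht
        have ht' : -t ∈ Set.Icc x y := ⟨by linarith [ht.2], by linarith [ht.1]⟩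
        have e1 : σ * (-1) ^ (K + 1) * ((-1) ^ (K + 1) * F (K + 1) (-t)) = σ * F (K + 1) (-t) := by
          rw [mul_assoc, ← mul_assoc ((-1 : ℝ) ^ (K + 1)), hsq, one_mul]
        rw [e1]
        exact h2 _ ht'
      · intro t ht
        have ht' : -t ∈ Set.Icc x y := ⟨by linarith [ht.2], by linarith [ht.1]⟩
        have e1 : σ * (-1) ^ (K + 1) * ((-1) ^ (K + 2) * F (K + 2) (-t)) = -(σ * F (K + 2) (-t)) := by
          rw [pow_succ (-1 : ℝ) (K + 1)]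
          calc σ * (-1) ^ (K + 1) * ((-1) ^ (K + 1) * -1 * F (K + 2) (-t)) =
              ((-1) ^ (K + 1) * (-1) ^ (K + 1)) * (-(σ * F (K + 2) (-t))) := by ring
            _ = _ := by rw [hsq, one_mul]
        rw [e1]
        have := h8 _ ht'
        linarith
      · linarith
      · linarith
    have e2 : S ((fun m t => (-1) ^ m * F m (-t) : ℕ → ℝ → ℝ) 0) ω Q (-(u + L - 1)) L =
        S (fun t => F 0 (-t)) ω Q (-(u + L - 1)) L := by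
      unfold S
      simp
    rw [e2] at key
    exact key

end Pool.Agent.Y934.An
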