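import Pool.Agent.Y934.An.Glob
import Pool.Agent.Y933.KD.Roots
import Pool.Agent.Y933.KD.Fam

/-!
# The digits of the values of an analytic function at rational points (helper934)
-/

set_option autoImplicit false

namespace Pool.Agent.Y934.An

open Finset Real MeasureTheory Filter
open Pool.Agent.Y933.KD (hat unif unif_prob integral_unif norm_e e_add Good size_freq wd WS WS_add
  WS_ci ci ci_le abs_WS_le normal_gen)

/-- the integers `a` with `α M ≤ a ≤ β M` -/
noncomputable def box (α β : ℝ) (M : ℕ) : Finset ℤ := Finset.Icc ⌈α * M⌉ ⌊β * M⌋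

/-- the measures of the problem -/
def SA (f : ℝ → ℝ) (α β δ W : ℝ) (M : ℕ) : Set (Measure ℝ) :=
  {P | ∃ ω y : ℝ, (box α β M).Nonempty ∧ (M : ℝ) ^ δ ≤ |ω| ∧ |ω| ≤ (M : ℝ) ^ W ∧
    P = unif (box α β M) (fun a : ℤ => ω * f (a / M) + y)}

lemma SA_prob (f : ℝ → ℝ) (α β δ W : ℝ) (M : ℕ) (_hM : 1 ≤ M) (P : Measure ℝ)
    (hP : P ∈ SA f α β δ W M) : IsProbabilityMeasure P := by
  obtain ⟨ω, y, hne, _, _, rfl⟩ := hP
  exact unif_prob hne _

lemma sum_int (p q : ℤ) (g : ℤ → ℂ) :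
    ∑ a ∈ Finset.Icc p q, g a = ∑ n ∈ range (q + 1 - p).toNat, g (p + n) := by
  rw [Int.Icc_eq_finset_map, sum_map]
  rfl

lemma box_card (α β : ℝ) (M : ℕ) : (box α β M).card = (⌊β * M⌋ + 1 - ⌈α * M⌉).toNat := by
  unfold box
  rw [Int.card_Icc]

lemma box_card_le {α β : ℝ} (hαβ : α ≤ β) (M : ℕ) :
    ((box α β M).card : ℝ) ≤ (β - α) * M + 1 := by
  rw [box_card]
  have h1 := Int.floor_le (β * M)
  have h2 := Int.le_ceil (α * M)
  have h3 : 0 ≤ (β - α) * M := mul_nonneg (by linarith) (Nat.cast_nonneg _)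
  rcases le_or_gt 0 (⌊β * M⌋ + 1 - ⌈α * M⌉) with h | h
  · have h4 : (((⌊β * M⌋ + 1 - ⌈α * M⌉).toNat : ℕ) : ℝ) = ((⌊β * M⌋ + 1 - ⌈α * M⌉ : ℤ) : ℝ) := by
      rw [← Int.cast_natCast, Int.toNat_of_nonneg h]
    rw [h4]
    push_cast
    linarith
  · rw [Int.toNat_of_nonpos h.le]
    push_cast
    linarith

lemma le_box_card (α β : ℝ) (M : ℕ) : (β - α) * M - 1 ≤ ((box α β M).card : ℝ) := by
  rw [box_card]
  have h1 := Int.lt_floor_add_one (β * M)
  have h2 := Int.ceil_lt_add_one (α * M)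
  have h4 : ((⌊β * M⌋ + 1 - ⌈α * M⌉ : ℤ) : ℝ) ≤ (((⌊β * M⌋ + 1 - ⌈α * M⌉).toNat : ℕ) : ℝ) := by
    rw [← Int.cast_natCast]
    exact_mod_cast Int.self_le_toNat _
  refine le_trans ?_ h4
  push_cast
  linarith

lemma norm_KD_e (x : ℝ) : ‖Pool.Agent.Y933.KD.e x‖ = 1 := norm_e x

theorem good_values {f : ℝ → ℝ} {α β : ℝ} (hαβ : α < β) (hf : AnalyticOnNhd ℝ f (Set.Icc α β))
    (hp : ¬ ∃ p : Polynomial ℝ, ∀ t ∈ Set.Icc α β, f t = p.eval t) {δ : ℝ} (W : ℝ) (hδ : 0 < δ)
    (B k : ℕ) (A : ℝ) : Good B k A (SA f α β δ W) := by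
  obtain ⟨ρ, hρ, Q0, hQ0, hTP⟩ := TP_analytic hαβ.le hf hp (W + (1 + 1 + A * log B)) hδ
  have hba : 0 < β - α := by linarith
  obtain ⟨Q1, hQ1, h1⟩ := ev (2 / (β - α)) (ρ / 2) (by positivity)
  refine ⟨min (ρ / 2) 1, by positivity, max (max ⌈Q0⌉₊ ⌈Q1⌉₊) (max ⌈2 / (β - α)⌉₊ (max k 1)), ?_⟩
  intro M hM P hP b n h hb hn hh hne
  obtain ⟨ω, y, hbox, hω1, hω2, rfl⟩ := hP
  have hMQ0 : Q0 ≤ M := (Nat.le_ceil _).trans (by
    exact_mod_cast ((le_max_left _ _).trans (le_max_left _ _)).trans hM)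
  have hMQ1 : Q1 ≤ M := (Nat.le_ceil _).trans (by
    exact_mod_cast ((le_max_right _ _).trans (le_max_left _ _)).trans hM)
  have hMb : 2 / (β - α) ≤ M := (Nat.le_ceil _).trans (by
    exact_mod_cast ((le_max_left _ _).trans (le_max_right _ _)).trans hM)
  have hMk : k ≤ M := ((le_max_left _ _).trans ((le_max_right _ _).trans (le_max_right _ _))).trans hM
  have hM1' : 1 ≤ M := ((le_max_right _ _).trans ((le_max_right _ _).trans (le_max_right _ _))).trans hM
  have hMR : (1 : ℝ) ≤ M := by exact_mod_cast hM1'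
  have hMp : (0 : ℝ) < M := by linarith
  have hQb := h1 M hMQ1
  set l : ℤ := ∑ i, h i * (b i : ℤ) ^ n i with hl
  have hl1 : (1 : ℝ) ≤ |(l : ℝ)| := by
    have : (1 : ℤ) ≤ |l| := Int.one_le_abs hne
    exact_mod_cast this
  have hl2 : |(l : ℝ)| ≤ (M : ℝ) ^ (1 + 1 + A * log B) := by
    refine (size_freq hM1' hMk b n h hb hn hh).trans ?_
    apply Real.rpow_le_rpow_of_exponent_le hMR
    have := min_le_right (ρ / 2) 1
    linarith
  have hf1 : (M : ℝ) ^ δ ≤ |(l : ℝ) * ω| := by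
    rw [abs_mul]
    have : 0 < (M : ℝ) ^ δ := by positivity
    nlinarith
  have hf2 : |(l : ℝ) * ω| ≤ (M : ℝ) ^ (W + (1 + 1 + A * log B)) := by
    rw [abs_mul, Real.rpow_add hMp, mul_comm]
    gcongr
  set p : ℤ := ⌈α * M⌉ with hpdef
  set q : ℤ := ⌊β * M⌋ with hqdef
  have hpq : p ≤ q := by
    obtain ⟨a, ha⟩ := hbox
    unfold box at ha
    rw [Finset.mem_Icc] at ha
    exact ha.1.trans ha.2
  have hLcast : (((q + 1 - p).toNat : ℕ) : ℝ) = (q : ℝ) + 1 - p := by
    rw [← Int.cast_natCast, Int.toNat_of_nonneg (by omega)]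
    push_cast
    ring
  have key := hTP M hMQ0 ((l : ℝ) * ω) hf1 hf2 (p : ℝ) (q + 1 - p).toNat
    (Int.le_ceil _) (by
      rw [hLcast]
      have := Int.floor_le (β * M)
      rw [← hqdef] at this
      linarith)
  -- the Fourier coefficient
  unfold hat
  rw [integral_unif]
  have e1 : ∑ a ∈ box α β M, Pool.Agent.Y933.KD.e (l * (ω * f (a / M) + y)) =
      Pool.Agent.Y933.KD.e (l * y) * S f ((l : ℝ) * ω) M p (q + 1 - p).toNat := by
    unfold box
    rw [sum_int]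
    unfold S
    rw [mul_sum]
    refine sum_congr rfl fun n _ => ?_
    have e2 : (l : ℝ) * (ω * f (((⌈α * (M : ℝ)⌉ + (n : ℤ) : ℤ) : ℝ) / M) + y) =
        l * y + (l * ω) * f ((p + n) / M) := by
      push_cast
      ring
    rw [e2, e_add]
    rfl
  rw [e1, norm_mul, norm_mul, norm_KD_e, one_mul]
  have hcard : (β - α) / 2 * M ≤ ((box α β M).card : ℝ) := by
    refine le_trans ?_ (le_box_card α β M)
    have : 1 ≤ (β - α) / 2 * M := by
      rw [div_le_iff₀ hba] at hMb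
      linarith
    linarith
  have h4 : ‖(1 / ((box α β M).card : ℂ))‖ ≤ 2 / (β - α) * (M : ℝ) ^ (-1 : ℝ) := by
    rw [norm_div, norm_one, Complex.norm_natCast, Real.rpow_neg_one]
    have h5 : 0 < (β - α) / 2 * M := by positivity
    calc 1 / ((box α β M).card : ℝ) ≤ 1 / ((β - α) / 2 * M) := one_div_le_one_div_of_le h5 hcard
      _ = 2 / (β - α) * (M : ℝ)⁻¹ := by field_simp
  calc ‖(1 / ((box α β M).card : ℂ))‖ * ‖S f ((l : ℝ) * ω) M p (q + 1 - p).toNat‖
      ≤ (2 / (β - α) * (M : ℝ) ^ (-1 : ℝ)) * (M : ℝ) ^ (1 - ρ) := by gcongr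
    _ ≤ ((M : ℝ) ^ (ρ / 2) * (M : ℝ) ^ (-1 : ℝ)) * (M : ℝ) ^ (1 - ρ) := by gcongr
    _ = (M : ℝ) ^ (-(ρ / 2)) := by
        rw [← Real.rpow_add hMp, ← Real.rpow_add hMp]
        congr 1
        ring
    _ ≤ (M : ℝ) ^ (-(min (ρ / 2) 1)) := by
        apply Real.rpow_le_rpow_of_exponent_le hMR
        have := min_le_left (ρ / 2) 1
        linarith

lemma wd_shift (b k n s : ℕ) (x : ℝ) : wd b k n ((b : ℝ) ^ s * x) = wd b k (s + n) x := by
  unfold wd
  rw [← mul_assoc, ← pow_add, Nat.add_comm n s]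

lemma WS_shift (b k : ℕ) (G : ℕ → ℝ) (s N s0 : ℕ) (x : ℝ) :
    WS b k G s N ((b : ℝ) ^ s0 * x) = WS b k G (s0 + s) N x := by
  unfold WS
  refine sum_congr rfl fun i _ => ?_
  rw [wd_shift, Nat.add_assoc]

open Classical in
/-- **normality of the values of an analytic function at most rational points** -/
theorem normal_values {f : ℝ → ℝ} {α β : ℝ} (hαβ : α < β) (hf : AnalyticOnNhd ℝ f (Set.Icc α β))
    (hp : ¬ ∃ p : Polynomial ℝ, ∀ t ∈ Set.Icc α β, f t = p.eval t) (B w : ℕ) (A W ε : ℝ)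
    (hε : 0 < ε) :
    ∃ c : ℝ, 0 < c ∧ ∃ M0 : ℕ, ∀ M : ℕ, M0 ≤ M → ∀ ω y : ℝ, 1 ≤ |ω| → |ω| ≤ (M : ℝ) ^ W →
      (((box α β M).filter (fun a : ℤ => ¬ ∀ b k j s N : ℕ, 2 ≤ b → b ≤ B → 1 ≤ k →
        k ≤ w → j < b ^ k → (s : ℝ) + N ≤ A * Real.log M →
        |(((Finset.range N).filter (fun i => wd b k (s + i) (ω * f (a / M) + y) = j)).card : ℝ) -
          N / (b : ℝ) ^ k| ≤ ε * Real.log M)).card : ℝ) ≤ (M : ℝ) ^ (1 - c) := by
  set ε' : ℝ := min ε 1 with hε'
  have hε'0 : 0 < ε' := lt_min hε one_pos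
  set δ' : ℝ := ε' / 4 with hδ'
  have hlog2 : 0 < log 2 := Real.log_pos (by norm_num)
  set δ : ℝ := δ' * log 2 with hδ
  have hδ0 : 0 < δ := by positivity
  set W' : ℝ := W + (1 + δ' * log B) with hW'
  obtain ⟨c, hc, M1, h1⟩ := normal_gen (ι := ℤ) (B := B) (w := w) (A := A) (ε := ε' / 2)
    (by positivity) (SA_prob f α β δ W') (good_values hαβ hf hp W' hδ0 B 1 A)
  have hba : 0 < β - α := by linarith
  obtain ⟨Q1, hQ1, h2⟩ := ev ((B : ℝ) * (β - α + 1)) (c / 2) (by positivity)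
  obtain ⟨M2, hM2⟩ : ∃ M2 : ℕ, ∀ M : ℕ, M2 ≤ M → 1 ≤ ε' / 4 * log M := by
    have h3 : Tendsto (fun M : ℕ => ε' / 4 * log M) atTop atTop :=
      (Real.tendsto_log_atTop.comp tendsto_natCast_atTop_atTop).const_mul_atTop (by positivity)
    exact eventually_atTop.1 (h3.eventually_ge_atTop 1)
  refine ⟨c / 2, by positivity, max (max M1 M2) (max (max ⌈Q1⌉₊ ⌈2 / (β - α)⌉₊) (max B 1)), ?_⟩
  intro M hM ω y hω1 hω2
  have hMM1 : M1 ≤ M := ((le_max_left _ _).trans (le_max_left _ _)).trans hM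
  have hMM2 : M2 ≤ M := ((le_max_right _ _).trans (le_max_left _ _)).trans hM
  have hMQ1 : Q1 ≤ M := (Nat.le_ceil _).trans (by
    exact_mod_cast ((le_max_left _ _).trans ((le_max_left _ _).trans (le_max_right _ _))).trans hM)
  have hMb : 2 / (β - α) ≤ M := (Nat.le_ceil _).trans (by
    exact_mod_cast ((le_max_right _ _).trans ((le_max_left _ _).trans (le_max_right _ _))).trans hM)
  have hMB : B ≤ M := ((le_max_left _ _).trans ((le_max_right _ _).trans (le_max_right _ _))).trans hM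
  have hM1' : 1 ≤ M := ((le_max_right _ _).trans ((le_max_right _ _).trans (le_max_right _ _))).trans hM
  have hMR : (1 : ℝ) ≤ M := by exact_mod_cast hM1'
  have hMp : (0 : ℝ) < M := by linarith
  have hlogM : 0 ≤ log (M : ℝ) := Real.log_nonneg hMR
  have hone := hM2 M hMM2
  have hcardpos : (box α β M).Nonempty := by
    rw [← Finset.card_pos]
    have h3 := le_box_card α β M
    have h4 : 2 ≤ (β - α) * M := by
      rw [div_le_iff₀ hba] at hMb
      linarith
    have h5 : (0 : ℝ) < (box α β M).card := by linarith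
    exact_mod_cast h5
  set s0 : ℕ := ⌈δ' * log M⌉₊ with hs0
  have hs0a : δ' * log M ≤ s0 := Nat.le_ceil _
  have hs0b : (s0 : ℝ) < δ' * log M + 1 := Nat.ceil_lt_add_one (by positivity)
  -- the exceptional sets for the single bases
  let Z : ℕ → Finset ℤ := fun b₀ => (box α β M).filter (fun a : ℤ => ¬ ∀ b k j s N : ℕ, 2 ≤ b →
    b ≤ B → 1 ≤ k → k ≤ w → j < b ^ k → (s : ℝ) + N ≤ A * Real.log M →
    |(((Finset.range N).filter (fun i => wd b k (s + i)
      ((b₀ : ℝ) ^ s0 * ω * f (a / M) + (b₀ : ℝ) ^ s0 * y) = j)).card : ℝ) -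
      N / (b : ℝ) ^ k| ≤ ε' / 2 * Real.log M)
  have hZ : ∀ b₀ ∈ Finset.Icc 2 B, ((Z b₀).card : ℝ) ≤ ((β - α) * M + 1) * (M : ℝ) ^ (-c) := by
    intro b₀ hb₀
    rw [Finset.mem_Icc] at hb₀
    have hb2 : (2 : ℝ) ≤ b₀ := by exact_mod_cast hb₀.1
    have hbB : (b₀ : ℝ) ≤ B := by exact_mod_cast hb₀.2
    have hb0 : (0 : ℝ) < b₀ := by linarith
    have hmem : unif (box α β M) (fun a : ℤ => (b₀ : ℝ) ^ s0 * ω * f (a / M) + (b₀ : ℝ) ^ s0 * y) ∈
        SA f α β δ W' M := by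
      refine ⟨(b₀ : ℝ) ^ s0 * ω, (b₀ : ℝ) ^ s0 * y, hcardpos, ?_, ?_, rfl⟩
      · rw [abs_mul, abs_of_pos (by positivity)]
        have h3 : (M : ℝ) ^ δ ≤ (b₀ : ℝ) ^ s0 := by
          calc (M : ℝ) ^ δ = (2 : ℝ) ^ (δ' * log M) := by
                rw [Real.rpow_def_of_pos hMp, Real.rpow_def_of_pos (by norm_num)]
                congr 1
                rw [hδ]; ring
            _ ≤ (2 : ℝ) ^ (s0 : ℝ) := Real.rpow_le_rpow_of_exponent_le (by norm_num) hs0a
            _ = (2 : ℝ) ^ s0 := Real.rpow_natCast _ _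
            _ ≤ (b₀ : ℝ) ^ s0 := by gcongr
        have h4 : 0 < (b₀ : ℝ) ^ s0 := by positivity
        nlinarith
      · rw [abs_mul, abs_of_pos (by positivity), hW', Real.rpow_add hMp, mul_comm]
        have hB1 : (1 : ℝ) ≤ B := by linarith
        have h3 : (b₀ : ℝ) ^ s0 ≤ (M : ℝ) ^ (1 + δ' * log B) := by
          calc (b₀ : ℝ) ^ s0 ≤ (B : ℝ) ^ s0 := by gcongr
            _ = (B : ℝ) ^ (s0 : ℝ) := (Real.rpow_natCast _ _).symm
            _ ≤ (B : ℝ) ^ (1 + δ' * log M) := by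
                apply Real.rpow_le_rpow_of_exponent_le hB1
                linarith
            _ = B * (B : ℝ) ^ (δ' * log M) := by
                rw [Real.rpow_add (by linarith), Real.rpow_one]
            _ ≤ M * (M : ℝ) ^ (δ' * log B) := by
                have h4 : (B : ℝ) ^ (δ' * log M) = (M : ℝ) ^ (δ' * log B) := by
                  rw [Real.rpow_def_of_pos (by linarith), Real.rpow_def_of_pos hMp]
                  congr 1
                  ring
                have h5 : (B : ℝ) ≤ M := by exact_mod_cast hMB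
                rw [h4]
                gcongr
            _ = (M : ℝ) ^ (1 + δ' * log B) := by
                rw [Real.rpow_add hMp, Real.rpow_one]
        gcongr
    have h3 := h1 M hMM1 (box α β M) _ hmem
    refine h3.trans ?_
    have := box_card_le hαβ.le M
    gcongr
  have hsub : (box α β M).filter (fun a : ℤ => ¬ ∀ b k j s N : ℕ, 2 ≤ b → b ≤ B → 1 ≤ k →
        k ≤ w → j < b ^ k → (s : ℝ) + N ≤ A * Real.log M →
        |(((Finset.range N).filter (fun i => wd b k (s + i) (ω * f (a / M) + y) = j)).card : ℝ) -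
          N / (b : ℝ) ^ k| ≤ ε * Real.log M) ⊆ (Finset.Icc 2 B).biUnion Z := by
    intro a ha
    rw [Finset.mem_filter] at ha
    obtain ⟨ha1, ha2⟩ := ha
    by_contra hcon
    apply ha2
    intro b k j s N hb hbB hk hkw hj hsN
    have hZb : a ∉ Z b := fun h => hcon (Finset.mem_biUnion.2 ⟨b, Finset.mem_Icc.2 ⟨hb, hbB⟩, h⟩)
    have hgood : ∀ s N : ℕ, (s : ℝ) + N ≤ A * Real.log M →
        |WS b k (ci b k j) s N ((b : ℝ) ^ s0 * (ω * f (a / M) + y))| ≤ ε' / 2 * Real.log M := by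
      intro s N hsN
      by_contra hbad
      apply hZb
      refine Finset.mem_filter.2 ⟨ha1, fun hforall => hbad ?_⟩
      have h3 := hforall b k j s N hb hbB hk hkw hj hsN
      rw [WS_ci (by omega)]
      have h4 : (b : ℝ) ^ s0 * (ω * f (a / M) + y) =
          (b : ℝ) ^ s0 * ω * f (a / M) + (b : ℝ) ^ s0 * y := by ring
      rw [h4]
      exact h3
    have hgood' : ∀ s N : ℕ, s0 ≤ s → (s : ℝ) + N ≤ A * Real.log M →
        |WS b k (ci b k j) s N (ω * f (a / M) + y)| ≤ ε' / 2 * Real.log M := by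
      intro s N hs hsN
      obtain ⟨s', rfl⟩ := Nat.exists_eq_add_of_le hs
      rw [← WS_shift]
      apply hgood
      push_cast at hsN
      have : (0 : ℝ) ≤ s0 := Nat.cast_nonneg _
      linarith
    have htriv : ∀ s N : ℕ, |WS b k (ci b k j) s N (ω * f (a / M) + y)| ≤ N := by
      intro s N
      have := abs_WS_le (b := b) (w := k) (G := ci b k j) (K := 1) (fun c => ci_le (by omega) k j c)
        s N (ω * f (a / M) + y)
      linarith
    have hfin : |WS b k (ci b k j) s N (ω * f (a / M) + y)| ≤ ε' * Real.log M := by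
      rcases le_or_gt s0 s with hs | hs
      · have := hgood' s N hs hsN
        nlinarith
      · rcases le_or_gt N (s0 - s) with hN | hN
        · have h3 := htriv s N
          have h4 : (N : ℝ) ≤ s0 := by exact_mod_cast (by omega : N ≤ s0)
          have h5 : δ' * log M = ε' / 4 * log M := by rw [hδ']
          nlinarith
        · obtain ⟨N', hN'⟩ : ∃ N', N = (s0 - s) + N' := ⟨N - (s0 - s), by omega⟩
          rw [hN', WS_add]
          have h6 : s + (s0 - s) = s0 := by omega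
          rw [h6]
          have h3 := htriv s (s0 - s)
          have h4 : ((s0 - s : ℕ) : ℝ) ≤ s0 := by exact_mod_cast (by omega : s0 - s ≤ s0)
          have h7 := hgood' s0 N' le_rfl (by
            rw [hN'] at hsN
            have h8 : ((s0 - s : ℕ) : ℝ) = (s0 : ℝ) - s := Nat.cast_sub hs.le
            push_cast at hsN
            rw [h8] at hsN
            linarith)
          have h5 : δ' * log M = ε' / 4 * log M := by rw [hδ']
          refine (abs_add_le _ _).trans ?_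
          linarith
    rw [WS_ci (by omega)] at hfin
    refine hfin.trans ?_
    have := min_le_left ε 1
    gcongr
  calc _ ≤ (((Finset.Icc 2 B).biUnion Z).card : ℝ) := by exact_mod_cast Finset.card_le_card hsub
    _ ≤ ∑ b₀ ∈ Finset.Icc 2 B, ((Z b₀).card : ℝ) := by exact_mod_cast Finset.card_biUnion_le
    _ ≤ ∑ _b₀ ∈ Finset.Icc 2 B, ((β - α) * M + 1) * (M : ℝ) ^ (-c) := Finset.sum_le_sum hZ
    _ = ((Finset.Icc 2 B).card : ℝ) * (((β - α) * M + 1) * (M : ℝ) ^ (-c)) := by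
        rw [sum_const, nsmul_eq_mul]
    _ ≤ (B : ℝ) * (((β - α + 1) * M) * (M : ℝ) ^ (-c)) := by
        have h3 : ((Finset.Icc 2 B).card : ℝ) ≤ B := by
          rw [Nat.card_Icc]
          exact_mod_cast (by omega : B + 1 - 2 ≤ B)
        have h4 : (β - α) * M + 1 ≤ (β - α + 1) * M := by linarith
        have h5 : 0 ≤ (β - α) * M + 1 := by positivity
        gcongr
    _ = ((B : ℝ) * (β - α + 1)) * (M : ℝ) ^ (1 - c) := by
        rw [show (1 : ℝ) - c = 1 + -c by ring, Real.rpow_add hMp, Real.rpow_one]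
        ring
    _ ≤ (M : ℝ) ^ (c / 2) * (M : ℝ) ^ (1 - c) := by
        have := h2 M hMQ1
        gcongr
    _ = (M : ℝ) ^ (1 - c / 2) := by
        rw [← Real.rpow_add hMp]
        congr 1
        ring

end Pool.Agent.Y934.An
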